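import Mathlib
import Pool.Agent.D0H58.CK.Mech

/-!
# Truthful cake cutting with positive values when one agent may absorb the rest

The cake is `[0,1]`, densities are piecewise constant and pieces are finite unions of intervals.

* With free disposal there is, for every number of agents, a truthful mechanism that gives every
  agent a piece of positive value on every profile.
* When the whole cake has to be allocated, there is for `n + 1` agents a truthful mechanism that
  gives each of the first `n` agents a piece of positive value on every profile, and also the last
  agent unless its density lives on a tiny set: a set of measure at most `∑ i, γ i`, where the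
  gauges `γ i` are prescribed in advance and may depend in any way on the reports of the agents
  other than `i` (and other than the last agent).

Idea.  Every density has a top plateau, a dyadic cell on which it is equal to its essential maximum.
Agent `i` receives a dyadic cell of a level `n_i` computed from the reports of the others only,
finer than their top plateaus, and this cell has maximal reported value among the cells of level
`n_i`.  Truthfulness is clear; the cells can be chosen disjoint because the agent `a` with the
finest top plateau may take any favourite cell, and all others find (Hall) distinct cells of a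
common level inside their top plateaus, away from the cell of `a`.
-/

set_option autoImplicit false

open MeasureTheory

namespace Pool.Agent.Results.MP_b3d40b_lc.OneAbsorbingAgent

open Pool.Agent.V11109.Cake

/-- A mechanism with free disposal: as `Mechanism`, but a part of the cake may be left over. -/
structure FreeMechanism (n : ℕ) where
  alloc : (Fin n → Density) → Fin n → Set unitInterval
  intervals : ∀ p i, FinUnionIntervals (alloc p i)
  disjoint : ∀ p i j, i ≠ j → Disjoint (alloc p i) (alloc p j)

/-- Truth-telling is a dominant strategy. -/
def FreeMechanism.Truthful {n : ℕ} (M : FreeMechanism n) : Prop :=
  ∀ (i : Fin n) (p : Fin n → Density) (g : Density),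
    value (p i) (M.alloc (Function.update p i g) i) ≤ value (p i) (M.alloc p i)

/-- On every profile every agent receives a piece of positive value. -/
def FreeMechanism.PositiveForAll {n : ℕ} (M : FreeMechanism n) : Prop :=
  ∀ (p : Fin n → Density) (i : Fin n), 0 < value (p i) (M.alloc p i)

/-- Free disposal: a truthful mechanism with positive values for every number of agents.
Whole cake, `n + 1` agents: for all positive gauges `γ i`, where `γ i` depends on the reports of
the first `n` agents except agent `i`, there is a truthful mechanism such that on every profile
each of the first `n` agents receives an interval of length at most `γ i` and of positive value,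
and the last agent receives positive value unless its density is positive only on a set of measure
at most `∑ i, γ i`. -/
theorem result :
    (∀ n : ℕ, ∃ M : FreeMechanism n, M.Truthful ∧ M.PositiveForAll) ∧
    ∀ (n : ℕ) (γ : Fin n → (Fin n → Density) → ℝ), (∀ i q, 0 < γ i q) →
      (∀ i q g, γ i (Function.update q i g) = γ i q) →
      ∃ M : Mechanism (n + 1), M.Truthful ∧
        (∀ (p : Fin (n + 1) → Density) (i : Fin n),
          0 < value (p i.castSucc) (M.alloc p i.castSucc) ∧
          (M.alloc p i.castSucc).OrdConnected ∧
          (volume : Measure unitInterval).real (M.alloc p i.castSucc) ≤
            γ i (fun j => p j.castSucc)) ∧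
        ∀ p : Fin (n + 1) → Density,
          value (p (Fin.last n)) (M.alloc p (Fin.last n)) = 0 →
          (volume : Measure unitInterval).real {x | 0 < (p (Fin.last n)).f x} ≤
            ∑ i, γ i (fun j => p j.castSucc) := by
  constructor
  · intro n
    have hγ : ∀ (i : Fin n) (p : Fin n → Density) (g : Density),
        (fun (_ : Fin n) (_ : Fin n → Density) => (1 : ℝ)) i (Function.update p i g) =
          (fun (_ : Fin n) (_ : Fin n → Density) => (1 : ℝ)) i p := fun _ _ _ => rfl
    refine ⟨⟨fun p i => D0H58.CK.pick (fun _ _ => 1) p i, ?_, ?_⟩, ?_, ?_⟩
    · intro p i
      exact D0H58.CK.finUnion_of_ordConnected (D0H58.CK.cell_ordConnected _ _)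
    · intro p i j h
      exact D0H58.CK.idx_disjoint _ p i j h
    · intro i p g
      exact D0H58.CK.pick_truthful _ hγ i p g
    · intro p i
      exact D0H58.CK.pick_pos _ p i
  · intro n γ hpos hγ
    refine ⟨D0H58.CK.mech γ, D0H58.CK.mech_truthful γ hγ, ?_, ?_⟩
    · intro p i
      rw [D0H58.CK.mech_castSucc]
      exact ⟨D0H58.CK.pick_pos γ _ i, D0H58.CK.cell_ordConnected _ _,
        D0H58.CK.vr_pick_le γ hpos _ i⟩
    · intro p h
      exact D0H58.CK.supp_le γ hpos p h

end Pool.Agent.Results.MP_b3d40b_lc.OneAbsorbingAgent
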